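import Pool.Agent.W169.HF.DefsNF

/-!
# Project HF, task NF2: the Euler product of a newform of weight two
-/

set_option autoImplicit false

open Complex UpperHalfPlane MatrixGroups CongruenceSubgroup
open scoped ComplexConjugate

namespace Pool.Agent.W45.HF

open Pool.Agent.W169.HF

/-! ### the complete homogeneous polynomials -/

/-- `∑_{i + k = j} a^i b^k` -/
noncomputable def hh (a b : ℂ) (j : ℕ) : ℂ := ∑ x ∈ Finset.HasAntidiagonal.antidiagonal j, a ^ x.1 * b ^ x.2

lemma hh_zero (a b : ℂ) : hh a b 0 = 1 := by simp [hh]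

lemma hh_one (a b : ℂ) : hh a b 1 = a + b := by
  simp [hh, Finset.Nat.antidiagonal_succ]
  ring

lemma hh_succ (a b : ℂ) (j : ℕ) : hh a b (j + 1) = b ^ (j + 1) + a * hh a b j := by
  unfold hh
  rw [Finset.Nat.antidiagonal_succ, Finset.sum_cons, Finset.sum_map, Finset.mul_sum]
  congr 1
  · simp
  · refine Finset.sum_congr rfl fun x _ => ?_
    simp only [Function.Embedding.prodMap, Function.Embedding.coeFn_mk, Prod.map_fst,
      Prod.map_snd, Function.Embedding.refl_apply]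
    rw [Nat.succ_eq_add_one, pow_succ]
    ring

lemma hh_rec (a b : ℂ) (j : ℕ) :
    hh a b (j + 2) = (a + b) * hh a b (j + 1) - a * b * hh a b j := by
  rw [hh_succ a b (j + 1), hh_succ a b j]
  ring

lemma hh_norm (a b : ℂ) (ha : ‖a‖ ≤ 1) (hb : ‖b‖ ≤ 1) (j : ℕ) : ‖hh a b j‖ ≤ j + 1 := by
  unfold hh
  refine (norm_sum_le _ _).trans ?_
  calc ∑ x ∈ Finset.HasAntidiagonal.antidiagonal j, ‖a ^ x.1 * b ^ x.2‖ ≤
        ∑ x ∈ Finset.HasAntidiagonal.antidiagonal j, (1 : ℝ) := by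
        refine Finset.sum_le_sum fun x _ => ?_
        rw [norm_mul, norm_pow, norm_pow]
        exact mul_le_one₀ (pow_le_one₀ (norm_nonneg _) ha) (by positivity)
          (pow_le_one₀ (norm_nonneg _) hb)
    _ = j + 1 := by simp

/-- the local factor -/
lemma hh_tsum (a b x : ℂ) (ha : ‖a‖ ≤ 1) (hb : ‖b‖ ≤ 1) (hx : ‖x‖ < 1) :
    ∑' j : ℕ, hh a b j * x ^ j = (1 - a * x)⁻¹ * (1 - b * x)⁻¹ := by
  have h1 : ‖a * x‖ < 1 := by
    rw [norm_mul]
    calc ‖a‖ * ‖x‖ ≤ 1 * ‖x‖ := mul_le_mul_of_nonneg_right ha (norm_nonneg _)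
      _ < 1 := by rwa [one_mul]
  have h2 : ‖b * x‖ < 1 := by
    rw [norm_mul]
    calc ‖b‖ * ‖x‖ ≤ 1 * ‖x‖ := mul_le_mul_of_nonneg_right hb (norm_nonneg _)
      _ < 1 := by rwa [one_mul]
  rw [← tsum_geometric_of_norm_lt_one h1, ← tsum_geometric_of_norm_lt_one h2,
    tsum_mul_tsum_eq_tsum_sum_antidiagonal_of_summable_norm
      (summable_norm_geometric_of_norm_lt_one h1) (summable_norm_geometric_of_norm_lt_one h2)]
  refine tsum_congr fun j => ?_
  unfold hh
  rw [Finset.sum_mul]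
  refine Finset.sum_congr rfl fun y hy => ?_
  rw [← Finset.HasAntidiagonal.mem_antidiagonal.1 hy, mul_pow, mul_pow, pow_add]
  ring

/-! ### the roots -/

lemma roots (t : ℂ) (ht : t.im = 0) (h : ‖t‖ ≤ 2) :
    ∃ a b : ℂ, a + b = t ∧ a * b = 1 ∧ ‖a‖ ≤ 1 ∧ ‖b‖ ≤ 1 := by
  have ht' : t = (t.re : ℂ) := by
    apply Complex.ext <;> simp [ht]
  set r := t.re with hr
  have h2 : |r| ≤ 2 := (Complex.abs_re_le_norm t).trans h
  have h3 : r ^ 2 ≤ 4 := by
    have := abs_le.1 h2
    nlinarith [this.1, this.2]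
  have h4 : 0 ≤ 1 - r ^ 2 / 4 := by linarith
  set v := Real.sqrt (1 - r ^ 2 / 4) with hv
  have hv2 : v ^ 2 = 1 - r ^ 2 / 4 := Real.sq_sqrt h4
  have hn : ∀ u : ℝ, u ^ 2 = 1 - r ^ 2 / 4 → ‖(⟨r / 2, u⟩ : ℂ)‖ ≤ 1 := by
    intro u hu
    have : ‖(⟨r / 2, u⟩ : ℂ)‖ ^ 2 = 1 := by
      rw [Complex.sq_norm, Complex.normSq_mk]
      linear_combination hu
    nlinarith [norm_nonneg (⟨r / 2, u⟩ : ℂ)]
  refine ⟨⟨r / 2, v⟩, ⟨r / 2, -v⟩, ?_, ?_, hn v hv2, hn (-v) (by rw [neg_sq]; exact hv2)⟩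
  · rw [ht']
    apply Complex.ext <;> simp
  · apply Complex.ext
    · simp only [Complex.mul_re, Complex.one_re]
      linear_combination hv2
    · simp only [Complex.mul_im, Complex.one_im]
      ring

/-- the Satake parameters -/
lemma satake (N : ℕ) (f : CuspForm (Gamma0 N : Subgroup (GL (Fin 2) ℝ)) 2) (w : ℝ)
    (hf : IsForm N f w) (p : ℕ) (hp : p.Prime) :
    ∃ a b : ℂ, ‖a‖ ≤ 1 ∧ ‖b‖ ≤ 1 ∧
      ∀ j : ℕ, coef f (p ^ j) = hh a b j * ((Real.sqrt p : ℝ) : ℂ) ^ j := by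
  have hp0 : (0 : ℝ) < p := by exact_mod_cast hp.pos
  have hs0 : 0 < Real.sqrt p := Real.sqrt_pos.2 hp0
  have hs0' : ((Real.sqrt p : ℝ) : ℂ) ≠ 0 := by exact_mod_cast hs0.ne'
  have hs2 : ((Real.sqrt p : ℝ) : ℂ) ^ 2 = (p : ℂ) := by
    have := Real.sq_sqrt hp0.le
    exact_mod_cast this
  set t : ℂ := coef f p / ((Real.sqrt p : ℝ) : ℂ) with ht
  have htim : t.im = 0 := by
    rw [ht, Complex.div_ofReal_im, hf.real, zero_div]
  have htn : ‖t‖ = ‖coef f p‖ / Real.sqrt p := by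
    rw [ht, norm_div, Complex.norm_real, Real.norm_of_nonneg hs0.le]
  have hct : coef f p = t * ((Real.sqrt p : ℝ) : ℂ) := by
    rw [ht]; field_simp
  have key : ∀ (a b : ℂ), a + b = t → a * b = (if p ∣ N then 0 else 1) →
      ∀ j : ℕ, coef f (p ^ j) = hh a b j * ((Real.sqrt p : ℝ) : ℂ) ^ j := by
    intro a b hab hab' j
    induction j using Nat.strong_induction_on with
    | _ j ih =>
      rcases j with _ | _ | j
      · rw [pow_zero, hf.one, hh_zero, pow_zero, mul_one]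
      · rw [zero_add, pow_one, hh_one, hab, pow_one]; exact hct
      · rw [hf.pow p j hp, ih (j + 1) (by omega), ih j (by omega), hh_rec, hab, hab', hct]
        rw [← hs2]
        split_ifs
        · ring
        · ring
  by_cases hN : p ∣ N
  · refine ⟨t, 0, ?_, by simp, key t 0 (by ring) (by rw [if_pos hN, mul_zero])⟩
    rw [htn, div_le_one hs0]
    exact hf.bad p hp hN
  · obtain ⟨a, b, h1, h2, h3, h4⟩ := roots t htim (by
      rw [htn, div_le_iff₀ hs0]
      exact hf.good p hp hN)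
    exact ⟨a, b, h3, h4, key a b h1 (by rw [if_neg hN, h2])⟩

lemma coef_bd (N : ℕ) (f : CuspForm (Gamma0 N : Subgroup (GL (Fin 2) ℝ)) 2) (w : ℝ)
    (hf : IsForm N f w) (n : ℕ) (hn : n ≠ 0) :
    ‖coef f n‖ ≤ (n.divisors.card : ℝ) * Real.sqrt n := by
  induction n using Nat.recOnPosPrimePosCoprime with
  | prime_pow p j hp hj =>
    obtain ⟨a, b, ha, hb, h⟩ := satake N f w hf p hp
    rw [h j, norm_mul, norm_pow, Complex.norm_real, Real.norm_of_nonneg (Real.sqrt_nonneg _),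
      Nat.divisors_prime_pow hp, Finset.card_map, Finset.card_range]
    have e : Real.sqrt ((p ^ j : ℕ) : ℝ) = Real.sqrt p ^ j := by
      rw [Nat.cast_pow, Real.sqrt_eq_iff_mul_self_eq (by positivity) (by positivity), ← mul_pow,
        Real.mul_self_sqrt (by positivity)]
    rw [e]
    have := hh_norm a b ha hb j
    push_cast
    exact mul_le_mul_of_nonneg_right this (by positivity)
  | zero => exact absurd rfl hn
  | one => rw [hf.one]; simp
  | coprime a b ha hb hab iha ihb =>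
    have iha := iha (by omega)
    have ihb := ihb (by omega)
    rw [hf.mul a b hab, norm_mul, hab.card_divisors_mul, Nat.cast_mul, Nat.cast_mul,
      Real.sqrt_mul (by positivity)]
    calc ‖coef f a‖ * ‖coef f b‖ ≤
          ((a.divisors.card : ℝ) * Real.sqrt a) * ((b.divisors.card : ℝ) * Real.sqrt b) :=
          mul_le_mul iha ihb (norm_nonneg _) (by positivity)
      _ = _ := by ring

/-! ### summability -/

lemma summable_div (s : ℂ) (hs : 1 < s.re) :
    Summable (fun n : ℕ => (n.divisors.card : ℝ) * (n : ℝ) ^ (-s.re)) := by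
  have h1 : LSeriesSummable (fun n => ((ArithmeticFunction.zeta : ArithmeticFunction ℂ)) n) s :=
    ArithmeticFunction.LSeriesSummable_zeta_iff.2 hs
  have h2 := ArithmeticFunction.LSeriesSummable_mul h1 h1
  have h3 := h2.norm
  refine h3.congr fun n => ?_
  rcases Nat.eq_zero_or_pos n with rfl | hn
  · simp
  · rw [LSeries.term_of_ne_zero hn.ne', norm_div, Complex.norm_natCast_cpow_of_pos hn,
      ArithmeticFunction.coe_zeta_mul_apply]
    have e : ∑ i ∈ n.divisors, ((ArithmeticFunction.zeta : ArithmeticFunction ℂ)) i =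
        (n.divisors.card : ℂ) := by
      rw [Finset.sum_congr rfl (g := fun _ => (1 : ℂ))]
      · simp
      · intro i hi
        have : i ≠ 0 := (Nat.pos_of_mem_divisors hi).ne'
        simp [ArithmeticFunction.natCoe_apply, ArithmeticFunction.zeta_apply, this]
    rw [e, Complex.norm_natCast, Real.rpow_neg (by positivity), div_eq_mul_inv]

lemma term_bd (N : ℕ) (f : CuspForm (Gamma0 N : Subgroup (GL (Fin 2) ℝ)) 2) (w : ℝ)
    (hf : IsForm N f w) (s : ℂ) (hs : 1 < s.re) (n : ℕ) :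
    ‖coef f n * ((n : ℕ) : ℂ) ^ (-(s + 1 / 2))‖ ≤ (n.divisors.card : ℝ) * (n : ℝ) ^ (-s.re) := by
  rcases Nat.eq_zero_or_pos n with rfl | hn
  · have : -(s + 1 / 2) ≠ 0 := by
      intro h
      have := congrArg Complex.re h
      simp at this
      linarith
    rw [Nat.cast_zero, Complex.zero_cpow this]
    simp
  · have hn0 : (0 : ℝ) < n := by exact_mod_cast hn
    rw [norm_mul, Complex.norm_natCast_cpow_of_pos hn]
    have e : (-(s + 1 / 2)).re = -(1 / 2) + -s.re := by simp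
    rw [e, Real.rpow_add hn0]
    have h := coef_bd N f w hf n hn.ne'
    have e2 : Real.sqrt n * (n : ℝ) ^ (-(1 / 2) : ℝ) = 1 := by
      rw [Real.sqrt_eq_rpow, ← Real.rpow_add hn0]
      norm_num
    calc ‖coef f n‖ * ((n : ℝ) ^ (-(1 / 2) : ℝ) * (n : ℝ) ^ (-s.re)) ≤
          ((n.divisors.card : ℝ) * Real.sqrt n) * ((n : ℝ) ^ (-(1 / 2) : ℝ) * (n : ℝ) ^ (-s.re)) :=
          mul_le_mul_of_nonneg_right h (by positivity)
      _ = (n.divisors.card : ℝ) * (Real.sqrt n * (n : ℝ) ^ (-(1 / 2) : ℝ)) * (n : ℝ) ^ (-s.re) := by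
          ring
      _ = _ := by rw [e2, mul_one]

theorem nf2 : S_NF2 := by
  intro N _ f w hf
  choose a b ha hb hab using satake N f w hf
  refine ⟨fun j p => if hp : p.Prime then (if j = 0 then a p hp else b p hp) else 0, ?_, ?_, ?_⟩
  · intro j p hp
    simp only [dif_pos hp]
    split_ifs
    · exact ha p hp
    · exact hb p hp
  · intro s hs
    have h1 : Summable (fun n : ℕ => ‖coef f n * ((n : ℕ) : ℂ) ^ (-(s + 1 / 2))‖) :=
      Summable.of_nonneg_of_le (fun n => norm_nonneg _) (term_bd N f w hf s hs) (summable_div s hs)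
    exact (summable_nat_add_iff 1).2 h1
  · intro s hs
    have h1 : Summable (fun n : ℕ => ‖coef f n * ((n : ℕ) : ℂ) ^ (-(s + 1 / 2))‖) :=
      Summable.of_nonneg_of_le (fun n => norm_nonneg _) (term_bd N f w hf s hs) (summable_div s hs)
    have hne : -(s + 1 / 2) ≠ 0 := by
      intro h
      have := congrArg Complex.re h
      simp at this
      linarith
    have h0 : coef f 0 * ((0 : ℕ) : ℂ) ^ (-(s + 1 / 2)) = 0 := by
      rw [Nat.cast_zero, Complex.zero_cpow hne, mul_zero]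
    have hE := EulerProduct.eulerProduct_tprod
      (f := fun n : ℕ => coef f n * ((n : ℕ) : ℂ) ^ (-(s + 1 / 2)))
      (by simp [hf.one]) (by
        intro m n hmn
        rw [hf.mul m n hmn, Nat.cast_mul, Complex.natCast_mul_natCast_cpow]
        ring) h1 h0
    rw [h1.of_norm.tsum_eq_zero_add, h0, zero_add] at hE
    rw [← hE]
    refine tprod_congr fun p => ?_
    rw [Fin.prod_univ_two]
    have hp := p.2
    have hp0 : (0 : ℝ) < ((p : ℕ) : ℝ) := by exact_mod_cast hp.pos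
    simp only [dif_pos hp, if_true, one_ne_zero, if_false]
    have hx : ‖(((p : ℕ) : ℂ)) ^ (-s)‖ < 1 := by
      rw [Complex.norm_natCast_cpow_of_pos hp.pos, Complex.neg_re]
      exact Real.rpow_lt_one_of_one_lt_of_neg (by exact_mod_cast hp.one_lt) (by linarith)
    rw [← hh_tsum (a p hp) (b p hp) _ (ha p hp) (hb p hp) hx]
    refine tsum_congr fun j => ?_
    rw [hab p hp j, mul_assoc]
    congr 1
    have e1 : (((p : ℕ) ^ j : ℕ) : ℂ) ^ (-(s + 1 / 2)) = (((p : ℕ) : ℂ) ^ (-(s + 1 / 2))) ^ j := by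
      rw [← Complex.cpow_nat_mul, Nat.cast_pow, Complex.natCast_cpow_natCast_mul]
    rw [e1, ← mul_pow]
    congr 1
    have hpc : ((p : ℕ) : ℂ) ≠ 0 := by exact_mod_cast hp.ne_zero
    have e2 : ((Real.sqrt ((p : ℕ) : ℝ) : ℝ) : ℂ) = ((p : ℕ) : ℂ) ^ (1 / 2 : ℂ) := by
      rw [Real.sqrt_eq_rpow, Complex.ofReal_cpow hp0.le]
      push_cast
      rfl
    rw [e2, ← Complex.cpow_add _ _ hpc]
    congr 1
    ring

end Pool.Agent.W45.HF
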