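import Pool.Agent.W169.HF.DefsB

/-!
# Project HF, task PROF: the profile from a zero-free half-strip
-/

set_option autoImplicit false

open Complex MeasureTheory Filter Topology Set
open scoped ComplexConjugate

namespace Pool.Agent.W45.HF

open Pool.Agent.W169.HF

lemma normsq_le {u : ℂ} {R : ℝ} (h1 : |u.re| ≤ R) (h2 : |u.im| ≤ R) : ‖u‖ ^ 2 ≤ 2 * R ^ 2 := by
  rw [Complex.sq_norm, Complex.normSq_apply]
  have h3 := sq_le_sq' (abs_le.1 h1).1 (abs_le.1 h1).2
  have h4 := sq_le_sq' (abs_le.1 h2).1 (abs_le.1 h2).2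
  nlinarith

lemma norm_fe {K ϑ0 ℓ G : ℝ} {f : ℂ → ℂ} (hf : UD K ϑ0 ℓ G f) (u : ℂ) :
    ‖f u‖ = ‖f (-conj u)‖ := by
  obtain ⟨ε, hε, h⟩ := hf.fe
  rw [h u, norm_mul, hε, one_mul, Complex.norm_conj]

theorem prof_of (h1 : S_TC) (h2 : S_LCX) : S_PROF := by
  intro K ϑ0 ϑ ρ κ R1 hK hϑ0 hϑ0' hϑ hϑϑ hρ hρ1 hκ hR1
  obtain ⟨κ2, R2, ℓ1, hκ2, hR2, hL⟩ := h2 K ϑ0 (ϑ + ρ) κ R1 hK hϑ0 hϑ0' (by linarith) (by linarith)
    hκ hR1
  obtain ⟨κ1, R, hκ1, hR, hT⟩ := h1 (ϑ0 + 1) ϑ0 ϑ ρ (min κ κ2) (max R2 3) (by linarith) hϑ hρ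
    (lt_min hκ hκ2) (by have := le_max_right R2 (3 : ℝ); linarith)
  have hR2' : R2 ≤ max R2 3 := le_max_left _ _
  have hR3' : 3 ≤ max R2 3 := le_max_right _ _
  set B : ℝ := K * (1 + 2 * R ^ 2) with hB
  have hB0 : 0 ≤ B := by positivity
  refine ⟨R, max 1 (max ℓ1 (max B (B / κ1))), by linarith, ?_⟩
  intro ℓ G f hℓ hf hz
  have hℓ1 : 1 ≤ ℓ := (le_max_left _ _).trans hℓ
  have hℓ2 : ℓ1 ≤ ℓ := ((le_max_left _ _).trans (le_max_right _ _)).trans hℓ
  have hℓ3 : B ≤ ℓ := (((le_max_left _ _).trans (le_max_right _ _)).trans (le_max_right _ _)).trans hℓ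
  have hℓ4 : B / κ1 ≤ ℓ :=
    (((le_max_right _ _).trans (le_max_right _ _)).trans (le_max_right _ _)).trans hℓ
  have hℓ5 : B ≤ κ1 * ℓ := by
    rw [div_le_iff₀ hκ1] at hℓ4
    linarith
  have hℓ0 : 0 < ℓ := by linarith
  have hG := hf.hG
  have hKB : ∀ u : ℂ, |u.re| ≤ R → |u.im| ≤ R → K * (1 + ‖u‖ ^ 2) ≤ B := by
    intro u hu1 hu2
    have := normsq_le hu1 hu2
    rw [hB]
    exact mul_le_mul_of_nonneg_left (by linarith) (by linarith)
  have key := hT ℓ G f hℓ0 hG hf.slow.1 (fun u hu1 hu2 hu3 => hz u hu1 hu3.le)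
    (by
      intro u hu1 hu2 hu3
      have hre : 0 ≤ u.re := by linarith
      have habs : |u.re| = u.re := abs_of_nonneg hre
      have h3 := hKB u (by rw [habs]; exact hu2.le) hu3.le
      refine (hf.up u).trans (mul_le_mul_of_nonneg_left (Real.exp_le_exp.2 ?_) hG.le)
      have h4 : max |u.re| ϑ0 ≤ u.re + ϑ0 := by
        rw [habs]
        exact max_le (by linarith) (by linarith)
      have h5 := mul_le_mul_of_nonneg_left h4 hℓ0.le
      nlinarith)
    (by
      intro u hu1 hu2 hu3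
      have hre : 0 ≤ u.re := by linarith
      have habs : |u.re| = u.re := abs_of_nonneg hre
      have h3 := hKB u (by rw [habs]; exact hu2.le) hu3.le
      constructor
      · refine le_trans (mul_le_mul_of_nonneg_left (Real.exp_le_exp.2 ?_) hG.le) (hf.lo u hu1.le)
        linarith
      · refine (hf.up u).trans (mul_le_mul_of_nonneg_left (Real.exp_le_exp.2 ?_) hG.le)
        rw [habs, max_eq_left hu1.le]
        linarith)
  have hmin1 : min κ κ2 ≤ κ := min_le_left _ _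
  have hmin2 : min κ κ2 ≤ κ2 := min_le_right _ _
  -- the upper bound to the right
  have hup : ∀ u : ℂ, ϑ + ρ ≤ u.re → u.re ≤ R1 → |u.im| ≤ R1 →
      ‖f u‖ ≤ G * Real.exp (ℓ * u.re + κ * ℓ) := by
    intro u hu1 hu2 hu3
    have h3 := (key u hu1 (by linarith) (by linarith)).2.1
    refine h3.trans (mul_le_mul_of_nonneg_left (Real.exp_le_exp.2 ?_) hG.le)
    have := mul_le_mul_of_nonneg_right hmin1 hℓ0.le
    linarith
  refine ⟨?_, ?_, ?_⟩
  · intro u hu1 hu2 hu3
    have h3 := (key u hu1 (by linarith) (by linarith)).1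
    refine le_trans (mul_le_mul_of_nonneg_left (Real.exp_le_exp.2 ?_) hG.le) h3
    have := mul_le_mul_of_nonneg_right hmin1 hℓ0.le
    linarith
  · intro u hu1 hu2
    rcases le_or_gt |u.re| (ϑ + ρ) with h3 | h3
    · rw [max_eq_right h3]
      refine hL ℓ G f hℓ2 hf ?_ u h3 hu2
      intro v hv1 hv2
      have h4 := (key v (by rw [hv1]) (by rw [hv1]; linarith) (by linarith)).2.1
      rw [hv1] at h4
      refine h4.trans (mul_le_mul_of_nonneg_left (Real.exp_le_exp.2 ?_) hG.le)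
      have := mul_le_mul_of_nonneg_right hmin2 hℓ0.le
      linarith
    · rw [max_eq_left h3.le]
      rcases le_or_gt 0 u.re with h4 | h4
      · rw [abs_of_nonneg h4] at h3 hu1 ⊢
        exact hup u h3.le hu1 hu2
      · rw [abs_of_neg h4] at h3 hu1 ⊢
        rw [norm_fe hf u]
        have h5 := hup (-conj u) (by simp only [neg_re, conj_re]; exact h3.le)
          (by simp only [neg_re, conj_re]; exact hu1)
          (by simp only [neg_im, conj_im, neg_neg]; exact hu2)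
        simp only [neg_re, conj_re] at h5
        exact h5
  · intro u hu1 hu2 hu3
    have h3 := (key u hu1 (by linarith) (by linarith)).2.2
    refine h3.trans ?_
    exact mul_le_mul_of_nonneg_right hmin1 hℓ0.le

end Pool.Agent.W45.HF
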